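import Pool.Agent.U443.OddCyc

/-!
# Corona plus ker (or core) is at most `2 α` plus the number of odd cycles
-/

set_option autoImplicit false

open Finset

namespace Pool.Agent.Results.MP_7e5e3f_co.CoronaPlusCore

universe u
variable {V : Type u}

/-- `S` is a maximum independent set of `G`. -/
def IsMaxIndep (G : SimpleGraph V) (S : Finset V) : Prop :=
  G.IsIndepSet (S : Set V) ∧ S.card = G.indepNum

/-- `corona(G)`: the union of all maximum independent sets. -/
def corona (G : SimpleGraph V) : Set V := {v | ∃ S, IsMaxIndep G S ∧ v ∈ S}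

/-- `core(G)`: the intersection of all maximum independent sets. -/
def core (G : SimpleGraph V) : Set V := {v | ∀ S, IsMaxIndep G S → v ∈ S}

/-- `N(X)`: the set of the vertices adjacent to at least one vertex of `X`. -/
def nbhd (G : SimpleGraph V) (X : Finset V) : Set V := {w | ∃ x ∈ X, G.Adj x w}

/-- `d_G(X) = |X| - |N(X)|`. -/
noncomputable def dif (G : SimpleGraph V) (X : Finset V) : ℤ :=
  (X.card : ℤ) - ((nbhd G X).ncard : ℤ)

/-- `X` is a critical independent set: an independent set maximizing `d_G`. -/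
def IsCritical (G : SimpleGraph V) (X : Finset V) : Prop :=
  G.IsIndepSet (X : Set V) ∧ ∀ Y : Finset V, G.IsIndepSet (Y : Set V) → dif G Y ≤ dif G X

/-- `ker(G)`: the intersection of all critical independent sets. -/
def ker (G : SimpleGraph V) : Set V := {v | ∀ X, IsCritical G X → v ∈ X}

/-- The edge sets of the odd cycles of `G`. -/
def oddCycles (G : SimpleGraph V) : Set (Set (Sym2 V)) :=
  {c | ∃ (v : V) (w : G.Walk v v), w.IsCycle ∧ Odd w.length ∧ c = {e | e ∈ w.edges}}

/-- `X` meets every odd cycle of `G` none of whose vertices lies in `core(G)` or is adjacent to a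
vertex of `core(G)`, i.e. every odd cycle of the graph `G - N[core(G)]`. -/
def HitsOddCyclesOffCore (G : SimpleGraph V) (X : Set V) : Prop :=
  ∀ (v : V) (w : G.Walk v v), w.IsCycle → Odd w.length →
    (∀ u ∈ w.support, u ∉ core G ∧ ∀ c ∈ core G, ¬ G.Adj c u) → ∃ u ∈ w.support, u ∈ X

lemma exists_maxIndep [Finite V] (G : SimpleGraph V) : ∃ S, IsMaxIndep G S := by
  classical
  have := Fintype.ofFinite V
  obtain ⟨S, hS⟩ := G.exists_isNIndepSet_indepNum
  exact ⟨S, hS.isIndepSet, hS.card_eq⟩

lemma card_le [Finite V] (G : SimpleGraph V) {S : Finset V} (hS : G.IsIndepSet (S : Set V)) :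
    S.card ≤ G.indepNum := by
  have := Fintype.ofFinite V
  exact hS.card_le_indepNum

/-- Every maximum independent set contains a critical independent set. -/
lemma exists_critical_subset [Finite V] (G : SimpleGraph V) {S : Finset V} (hS : IsMaxIndep G S) :
    ∃ Y, IsCritical G Y ∧ Y ⊆ S := by
  classical
  have := Fintype.ofFinite V
  -- a critical independent set
  obtain ⟨X, hX⟩ : ∃ X, IsCritical G X := by
    have hne : ((univ : Finset (Finset V)).filter
        (fun X : Finset V => G.IsIndepSet (X : Set V))).Nonempty :=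
      ⟨∅, by simp [SimpleGraph.IsIndepSet]⟩
    obtain ⟨X, hX, hmax⟩ := Finset.exists_max_image _ (fun X : Finset V => dif G X) hne
    exact ⟨X, (mem_filter.1 hX).2, fun Y hY => hmax Y (mem_filter.2 ⟨mem_univ _, hY⟩)⟩
  set NX : Finset V := univ.filter (fun w => ∃ x ∈ X, G.Adj x w) with hNX
  have hNXc : (nbhd G X).ncard = NX.card := by
    rw [← Set.ncard_coe_finset]
    congr 1
    ext w
    simp [nbhd, hNX]
  -- swapping
  have h1 : (X \ S).card ≤ (S ∩ NX).card := by
    have hI : G.IsIndepSet (((S \ NX) ∪ X : Finset V) : Set V) := by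
      intro a ha b hb hab hadj
      simp only [coe_union, coe_sdiff, Set.mem_union, Set.mem_sdiff, mem_coe] at ha hb
      rcases ha with ⟨ha1, ha2⟩ | ha
      · rcases hb with ⟨hb1, hb2⟩ | hb
        · exact hS.1 (mem_coe.2 ha1) (mem_coe.2 hb1) hab hadj
        · exact ha2 (mem_filter.2 ⟨mem_univ _, b, hb, hadj.symm⟩)
      · rcases hb with ⟨hb1, hb2⟩ | hb
        · exact hb2 (mem_filter.2 ⟨mem_univ _, a, ha, hadj⟩)
        · exact hX.1 (mem_coe.2 ha) (mem_coe.2 hb) hab hadj
    have h2 := card_le G hI
    rw [← hS.2] at h2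
    have h3 : ((S \ NX) ∪ (X \ S)).card ≤ ((S \ NX) ∪ X).card := by
      apply card_le_card
      apply union_subset_union_right
      exact sdiff_subset
    have h4 : ((S \ NX) ∪ (X \ S)).card = (S \ NX).card + (X \ S).card := by
      apply card_union_of_disjoint
      rw [disjoint_left]
      intro a ha hb
      exact (mem_sdiff.1 hb).2 (mem_sdiff.1 ha).1
    have h5 : (S \ NX).card + (S ∩ NX).card = S.card := card_sdiff_add_card_inter S NX
    omega
  refine ⟨X ∩ S, ⟨?_, ?_⟩, inter_subset_right⟩
  · intro a ha b hb hab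
    exact hX.1 (mem_coe.2 (mem_inter.1 (mem_coe.1 ha)).1) (mem_coe.2 (mem_inter.1 (mem_coe.1 hb)).1) hab
  · intro Y hY
    refine le_trans (hX.2 Y hY) ?_
    unfold dif
    rw [hNXc]
    have h6 : (nbhd G (X ∩ S)).ncard ≤ (NX \ S).card := by
      rw [← Set.ncard_coe_finset]
      apply Set.ncard_le_ncard _ (Set.toFinite _)
      rintro w ⟨x, hx, hxw⟩
      rw [mem_inter] at hx
      rw [mem_coe, mem_sdiff]
      refine ⟨mem_filter.2 ⟨mem_univ _, x, hx.1, hxw⟩, fun hw => ?_⟩
      exact hS.1 (mem_coe.2 hx.2) (mem_coe.2 hw) hxw.ne hxw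
    have h7 : (NX \ S).card + (NX ∩ S).card = NX.card := card_sdiff_add_card_inter NX S
    have h8 : (X \ S).card + (X ∩ S).card = X.card := card_sdiff_add_card_inter X S
    rw [inter_comm S NX] at h1
    omega

lemma ker_subset_core [Finite V] (G : SimpleGraph V) : ker G ⊆ core G := by
  intro v hv S hS
  obtain ⟨Y, hY, hYS⟩ := exists_critical_subset G hS
  exact hYS (hv Y hY)

/-- The main inequality. -/
lemma main [Finite V] (G : SimpleGraph V) (X : Set V) (hX : HitsOddCyclesOffCore G X) :
    (corona G).ncard + (core G).ncard ≤ 2 * G.indepNum + X.ncard := by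
  classical
  have := Fintype.ofFinite V
  obtain ⟨S₀, hS₀⟩ := exists_maxIndep G
  set C : Finset V := univ.filter (fun v => v ∈ core G) with hC
  set N : Finset V := univ.filter (fun w => ∃ c ∈ core G, G.Adj c w) with hN
  set A : Finset V := univ.filter (fun v => v ∈ corona G) with hA
  set XF : Finset V := univ.filter (fun v => v ∈ X) with hXF
  have hCc : (core G).ncard = C.card := by
    rw [← Set.ncard_coe_finset]; congr 1; ext w; simp [hC]
  have hAc : (corona G).ncard = A.card := by
    rw [← Set.ncard_coe_finset]; congr 1; ext w; simp [hA]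
  have hXc : X.ncard = XF.card := by
    rw [← Set.ncard_coe_finset]; congr 1; ext w; simp [hXF]
  -- corona avoids N
  have hAN : Disjoint A N := by
    rw [disjoint_left]
    intro v hv hvN
    obtain ⟨S, hS, hvS⟩ := (mem_filter.1 hv).2
    obtain ⟨c, hc, hcv⟩ := (mem_filter.1 hvN).2
    exact hS.1 (mem_coe.2 (hc S hS)) (mem_coe.2 hvS) hcv.ne hcv
  have hAN' : A.card + N.card ≤ Fintype.card V := by
    rw [← card_union_of_disjoint hAN]
    exact card_le_univ _
  -- core is independent
  have hCind : ∀ a ∈ core G, ∀ b ∈ core G, ¬ G.Adj a b := by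
    intro a ha b hb hab
    exact hS₀.1 (mem_coe.2 (ha S₀ hS₀)) (mem_coe.2 (hb S₀ hS₀)) hab.ne hab
  -- the remaining graph
  set U : Finset V := univ.filter (fun v => v ∉ core G ∧ (∀ c ∈ core G, ¬ G.Adj c v) ∧ v ∉ X) with hU
  have hUc : Fintype.card V ≤ C.card + N.card + XF.card + U.card := by
    have : (univ : Finset V) ⊆ ((C ∪ N) ∪ XF) ∪ U := by
      intro v _
      simp only [mem_union, hC, hN, hXF, hU, mem_filter, mem_univ, true_and]
      by_cases h1 : v ∈ core G
      · exact Or.inl (Or.inl (Or.inl h1))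
      · by_cases h2 : ∃ c ∈ core G, G.Adj c v
        · exact Or.inl (Or.inl (Or.inr h2))
        · by_cases h3 : v ∈ X
          · exact Or.inl (Or.inr h3)
          · right
            refine ⟨h1, ?_, h3⟩
            intro c hc hcv
            exact h2 ⟨c, hc, hcv⟩
    calc Fintype.card V = (univ : Finset V).card := (card_univ).symm
      _ ≤ (((C ∪ N) ∪ XF) ∪ U).card := card_le_card this
      _ ≤ ((C ∪ N) ∪ XF).card + U.card := card_union_le _ _
      _ ≤ (C ∪ N).card + XF.card + U.card := by
          have := card_union_le (C ∪ N) XF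
          omega
      _ ≤ C.card + N.card + XF.card + U.card := by
          have := card_union_le C N
          omega
  -- it is bipartite
  have hcol : (G.induce (U : Set V)).Colorable 2 := by
    by_contra hcon
    obtain ⟨v, w, hw, hodd⟩ := U443.exists_odd_cycle hcon
    have hinj : Function.Injective
        (SimpleGraph.Embedding.induce (G := G) (U : Set V)).toHom := fun a b h => Subtype.ext h
    have hw' := hw.map (f := (SimpleGraph.Embedding.induce (G := G) (U : Set V)).toHom) hinj
    obtain ⟨u, hu, huX⟩ := hX _ _ hw' (by rw [SimpleGraph.Walk.length_map]; exact hodd) (by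
      intro u hu
      rw [SimpleGraph.Walk.support_map, List.mem_map] at hu
      obtain ⟨a, -, rfl⟩ := hu
      have := (mem_filter.1 (mem_coe.1 a.2)).2
      exact ⟨this.1, this.2.1⟩)
    rw [SimpleGraph.Walk.support_map, List.mem_map] at hu
    obtain ⟨a, -, rfl⟩ := hu
    have := (mem_filter.1 (mem_coe.1 a.2)).2
    exact this.2.2 huX
  obtain ⟨col⟩ := hcol
  have hhalf : ∀ i : Fin 2, C.card +
      (U.attach.filter (fun v => col ⟨v.1, mem_coe.2 v.2⟩ = i)).card ≤ G.indepNum := by
    intro i
    set W : Finset V := (U.attach.filter (fun v => col ⟨v.1, mem_coe.2 v.2⟩ = i)).map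
      (Function.Embedding.subtype _) with hW
    have hWc : W.card = (U.attach.filter (fun v => col ⟨v.1, mem_coe.2 v.2⟩ = i)).card :=
      card_map _
    rw [← hWc]
    have hWm : ∀ v ∈ W, ∃ h : v ∈ U, col ⟨v, mem_coe.2 h⟩ = i := by
      intro v hv
      rw [hW, mem_map] at hv
      obtain ⟨a, ha, rfl⟩ := hv
      exact ⟨a.2, (mem_filter.1 ha).2⟩
    have hd : Disjoint C W := by
      rw [disjoint_left]
      intro v hv hvW
      obtain ⟨h, -⟩ := hWm v hvW
      exact (mem_filter.1 h).2.1 (mem_filter.1 hv).2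
    rw [← card_union_of_disjoint hd]
    apply card_le
    intro a ha b hb hab hadj
    rw [mem_coe, mem_union] at ha hb
    rcases ha with ha | ha
    · rcases hb with hb | hb
      · exact hCind a (mem_filter.1 ha).2 b (mem_filter.1 hb).2 hadj
      · obtain ⟨h, -⟩ := hWm b hb
        exact (mem_filter.1 h).2.2.1 a (mem_filter.1 ha).2 hadj
    · rcases hb with hb | hb
      · obtain ⟨h, -⟩ := hWm a ha
        exact (mem_filter.1 h).2.2.1 b (mem_filter.1 hb).2 hadj.symm
      · obtain ⟨h, hi⟩ := hWm a ha
        obtain ⟨h', hi'⟩ := hWm b hb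
        have hadj' : (G.induce (U : Set V)).Adj ⟨a, mem_coe.2 h⟩ ⟨b, mem_coe.2 h'⟩ := hadj
        exact col.valid hadj' (hi.trans hi'.symm)
  have h0 := hhalf 0
  have h1 := hhalf 1
  have hsum : (U.attach.filter (fun v => col ⟨v.1, mem_coe.2 v.2⟩ = 0)).card +
      (U.attach.filter (fun v => col ⟨v.1, mem_coe.2 v.2⟩ = 1)).card = U.card := by
    have h3 : ∀ x : Fin 2, x = 1 ↔ ¬ x = 0 := by decide
    have h4 : (U.attach.filter (fun v => col ⟨v.1, mem_coe.2 v.2⟩ = 1)) =
        (U.attach.filter (fun v => ¬ col ⟨v.1, mem_coe.2 v.2⟩ = 0)) :=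
      filter_congr fun v _ => h3 _
    rw [h4, ← card_attach (s := U)]
    exact card_filter_add_card_filter_not _
  rw [hCc, hAc, hXc]
  omega

/-- One vertex for each odd cycle. -/
lemma exists_hitting [Finite V] (G : SimpleGraph V) :
    ∃ X : Set V, HitsOddCyclesOffCore G X ∧ X.ncard ≤ (oddCycles G).ncard := by
  classical
  have hch : ∀ c : oddCycles G, ∃ v : V, ∃ w : G.Walk v v, w.IsCycle ∧ Odd w.length ∧
      c.1 = {e | e ∈ w.edges} := fun c => c.2
  choose f hf using hch
  have hfin : (oddCycles G).Finite := Set.toFinite _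
  refine ⟨Set.range f, ?_, ?_⟩
  · intro v w hw hodd _
    have hmem : {e | e ∈ w.edges} ∈ oddCycles G := ⟨v, w, hw, hodd, rfl⟩
    refine ⟨f ⟨_, hmem⟩, ?_, Set.mem_range_self _⟩
    obtain ⟨w', hw', hodd', heq⟩ := hf ⟨_, hmem⟩
    -- the base vertex of `w'` lies on an edge of `w'`
    have hpos : ¬ w'.Nil := hw'.not_nil
    have he : s(f ⟨_, hmem⟩, w'.snd) ∈ w'.edges := by
      have h1 := w'.cons_tail_eq hpos
      have h2 : w'.edges = (SimpleGraph.Walk.cons (w'.adj_snd hpos) w'.tail).edges := by rw [h1]
      rw [h2, SimpleGraph.Walk.edges_cons]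
      exact List.mem_cons_self
    have he2 : s(f ⟨_, hmem⟩, w'.snd) ∈ w.edges := by
      have : s(f ⟨_, hmem⟩, w'.snd) ∈ {e | e ∈ w'.edges} := he
      rw [← heq] at this
      exact this
    exact w.fst_mem_support_of_mem_edges he2
  · have : Finite (oddCycles G) := hfin
    have := Fintype.ofFinite (oddCycles G)
    have h1 : (Set.range f).ncard ≤ Nat.card (oddCycles G) := by
      rw [← Set.image_univ]
      refine le_trans (Set.ncard_image_le (Set.toFinite _)) ?_
      rw [Set.ncard_univ]
    exact h1

/-- **Full answer to Q1** (yes), with two strengthenings: `ker(G)` may be replaced by the larger set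
`core(G)`, and the number of odd cycles by the size of any set of vertices which meets all odd
cycles of `G - N[core(G)]`. -/
theorem result [Finite V] (G : SimpleGraph V) :
    (corona G).ncard + (ker G).ncard ≤ 2 * G.indepNum + (oddCycles G).ncard ∧
    ker G ⊆ core G ∧
    (∀ X : Set V, HitsOddCyclesOffCore G X →
      (corona G).ncard + (core G).ncard ≤ 2 * G.indepNum + X.ncard) ∧
    ∃ X : Set V, HitsOddCyclesOffCore G X ∧ X.ncard ≤ (oddCycles G).ncard := by
  refine ⟨?_, ker_subset_core G, main G, exists_hitting G⟩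
  obtain ⟨X, hX, hXc⟩ := exists_hitting G
  have h1 := main G X hX
  have h2 := Set.ncard_le_ncard (ker_subset_core G) (Set.toFinite _)
  omega

end Pool.Agent.Results.MP_7e5e3f_co.CoronaPlusCore
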